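import Mathlib
import Pool.Agent.Lib.MP_24d225_co.H54Faces

set_option autoImplicit false

open Set Topology

namespace Pool.Agent.Results.MP_24d225_co.DualDiameter

/-- `A` and `B` cross properly at `p`: a homeomorphism of the plane sends `p` to the origin and,
near `p`, `A` to the first axis and `B` to the second axis. -/
def Crossing (A B : Set (ℝ × ℝ)) (p : ℝ × ℝ) : Prop :=
  ∃ φ : (ℝ × ℝ) ≃ₜ (ℝ × ℝ), φ p = 0 ∧
    ∀ᶠ q in 𝓝 p, (q ∈ A ↔ (φ q).2 = 0) ∧ (q ∈ B ↔ (φ q).1 = 0)

/-- A drawing of `G` in the plane as a simple topological graph. -/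
structure Drawing {V : Type} (G : SimpleGraph V) : Type where
  /-- the point of a vertex -/
  pos : V → ℝ × ℝ
  /-- the point set of an edge -/
  arc : G.edgeSet → Set (ℝ × ℝ)
  pos_inj : Function.Injective pos
  jordan : ∀ (u v : V) (h : G.Adj u v), ∃ γ : Path (pos u) (pos v),
    Function.Injective γ ∧ range γ = arc ⟨s(u, v), h⟩
  avoid : ∀ (e : G.edgeSet) (w : V), pos w ∈ arc e → w ∈ e.1
  once : ∀ e f : G.edgeSet, e ≠ f → (arc e ∩ arc f).Subsingleton
  meet : ∀ e f : G.edgeSet, e ≠ f → ∀ p ∈ arc e ∩ arc f,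
    (∃ w : V, w ∈ e.1 ∧ w ∈ f.1 ∧ p = pos w) ∨ (p ∉ range pos ∧ Crossing (arc e) (arc f) p)
  no_triple : ∀ e f g : G.edgeSet, e ≠ f → e ≠ g → f ≠ g →
    ∀ p ∈ arc e ∩ arc f ∩ arc g, p ∈ range pos

variable {V : Type} {G : SimpleGraph V}

/-- The point set of the drawing (and of its planarization). -/
def points (D : Drawing G) : Set (ℝ × ℝ) := range D.pos ∪ ⋃ e, D.arc e

/-- The vertices of the planarization: the vertices and the crossing points. -/
def nodes (D : Drawing G) : Set (ℝ × ℝ) :=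
  range D.pos ∪ {p | ∃ e f, e ≠ f ∧ p ∈ D.arc e ∧ p ∈ D.arc f}

/-- The edges of the planarization, without their ends: the pieces into which the nodes cut the
arcs. -/
def sides (D : Drawing G) : Set (Set (ℝ × ℝ)) :=
  {s | ∃ e, ∃ p ∈ D.arc e \ nodes D, s = connectedComponentIn (D.arc e \ nodes D) p}

/-- The faces of the planarization: the connected components of the complement. -/
def faces (D : Drawing G) : Set (Set (ℝ × ℝ)) :=
  {F | ∃ z, z ∉ points D ∧ F = connectedComponentIn (points D)ᶜ z}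

/-- The dual of the planarization: two faces are adjacent if an edge of the planarization lies on
the boundary of both. -/
def dual (D : Drawing G) : SimpleGraph (faces D) where
  Adj F F' := F ≠ F' ∧ ∃ s ∈ sides D, s ⊆ frontier F.1 ∧ s ⊆ frontier F'.1
  symm := ⟨fun _ _ h => ⟨h.1.symm, h.2.imp fun _ hs => ⟨hs.1, hs.2.2, hs.2.1⟩⟩⟩
  loopless := ⟨fun _ h => h.1 rfl⟩

section Proof

open Pool.Agent.Lib.MP_24d225_co

/-- The edge with index `e`. -/
def eOf (N : ℕ) (e : Fin N × Fin N) : (Gr N).edgeSet :=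
  ⟨s((e, false), (e, true)), (show (Gr N).Adj (e, false) (e, true) from ⟨rfl, by simp⟩)⟩

theorem eOf_adj {N : ℕ} {u v : Vx N} (h : (Gr N).Adj u v) : eOf N u.1 = ⟨s(u, v), h⟩ := by
  rcases u with ⟨e, b⟩
  rcases v with ⟨e', b'⟩
  obtain ⟨h1, h2⟩ := h
  simp only [] at h1 h2
  subst h1
  apply Subtype.ext
  cases b <;> cases b' <;> simp_all [eOf]

theorem mem_eOf {N : ℕ} (e : Fin N × Fin N) (w : Vx N) : w ∈ (eOf N e).1 ↔ w.1 = e := by
  rcases w with ⟨e', b⟩
  cases b <;> simp [eOf]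

theorem eOf_bij (N : ℕ) : Function.Bijective (eOf N) := by
  constructor
  · intro e e' h
    have : ((e, false) : Vx N) ∈ (eOf N e').1 := h ▸ (mem_eOf e _).mpr rfl
    exact (mem_eOf e' _).mp this
  · rintro ⟨z, hz⟩
    induction z using Sym2.ind with
    | _ u v => exact ⟨u.1, eOf_adj hz⟩

/-- The index of an edge. -/
noncomputable def idx (N : ℕ) : (Gr N).edgeSet ≃ Fin N × Fin N :=
  (Equiv.ofBijective _ (eOf_bij N)).symm

theorem idx_eOf {N : ℕ} (e : Fin N × Fin N) : idx N (eOf N e) = e :=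
  (Equiv.ofBijective _ (eOf_bij N)).symm_apply_apply e

theorem eOf_idx {N : ℕ} (e : (Gr N).edgeSet) : eOf N (idx N e) = e :=
  (Equiv.ofBijective _ (eOf_bij N)).apply_symm_apply e

/-- The drawing. -/
noncomputable def DD (N : ℕ) (hN : 0 < N) : Drawing (Gr N) where
  pos := ps N hN
  arc e := range (ar N hN (idx N e))
  pos_inj := ps_inj hN
  jordan u v h := by
    obtain ⟨h1, h2, h3, h4, -, -⟩ := edge_ok hN u v h
    refine ⟨⟨⟨gam N hN u v, h1⟩, h3, h4⟩, h2, ?_⟩
    rw [← eOf_adj h, idx_eOf]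
    exact range_gam hN u v
  avoid e w h := by
    rw [← eOf_idx e]
    exact (mem_eOf _ _).mpr (ps_mem hN _ _ h)
  once e f h :=
    arc_inter_subsingleton hN (idx0 _) (idx1 _) (idx0 _) (idx1 _)
      (idx_ne fun h' => h ((idx N).injective h'))
  meet e f h p hp := by
    have hne : idx N e ≠ idx N f := fun h' => h ((idx N).injective h')
    refine Or.inr ⟨?_, ?_⟩
    · rintro ⟨w, rfl⟩
      exact hne ((ps_mem hN _ _ hp.1).symm.trans (ps_mem hN _ _ hp.2))
    · obtain ⟨φ, h1, h2⟩ :=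
        arc_proper hN (idx0 _) (idx1 _) (idx0 _) (idx1 _) (idx_ne hne) hp.1 hp.2
      refine ⟨φ, h1, ?_⟩
      have : IsOpen {q : ℝ × ℝ | ‖φ q‖ < 1} := isOpen_lt (by fun_prop) continuous_const
      filter_upwards [this.mem_nhds (show ‖φ p‖ < 1 by simp [h1])] with q hq
      exact h2 q hq
  no_triple e f g h1 h2 h3 p hp := by
    exfalso
    have a := arc_inter_level hN (idx0 _) (idx1 _) (idx0 _) (idx1 _)
      (idx_ne fun h' => h1 ((idx N).injective h')) hp.1.1 hp.1.2
    have b := arc_inter_level hN (idx0 _) (idx1 _) (idx0 _) (idx1 _)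
      (idx_ne fun h' => h2 ((idx N).injective h')) hp.1.1 hp.2
    have c := arc_inter_level hN (idx0 _) (idx1 _) (idx0 _) (idx1 _)
      (idx_ne fun h' => h3 ((idx N).injective h')) hp.1.2 hp.2
    omega

variable {N : ℕ} (hN : 0 < N)

theorem points_eq : points (DD N hN) = drawing N hN := by
  ext q
  rw [mem_drawing]
  constructor
  · rintro (⟨w, rfl⟩ | h)
    · exact ⟨w.1, _, rfl⟩
    · obtain ⟨e, he⟩ := mem_iUnion.mp h
      exact ⟨_, he⟩
  · rintro ⟨e, he⟩
    refine Or.inr (mem_iUnion.mpr ⟨eOf N e, ?_⟩)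
    change q ∈ range (ar N hN (idx N (eOf N e)))
    rwa [idx_eOf]

theorem nodes_eq : nodes (DD N hN) = Nd N hN := by
  unfold nodes Nd
  congr 1
  ext q
  constructor
  · rintro ⟨e, f, h, h1, h2⟩
    exact ⟨_, _, fun h' => h ((idx N).injective h'), h1, h2⟩
  · rintro ⟨e, f, h, h1, h2⟩
    refine ⟨eOf N e, eOf N f, fun h' => h ((eOf_bij N).1 h'), ?_, ?_⟩
    · change q ∈ range (ar N hN (idx N (eOf N e)))
      rwa [idx_eOf]
    · change q ∈ range (ar N hN (idx N (eOf N f)))
      rwa [idx_eOf]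

theorem mem_faces (F : Set (ℝ × ℝ)) : F ∈ faces (DD N hN) ↔
    ∃ z, z ∉ drawing N hN ∧ F = connectedComponentIn (drawing N hN)ᶜ z := by
  unfold faces
  rw [points_eq]
  rfl

/-- The face of a unit square. -/
def fq (N : ℕ) (hN : 0 < N) (a b : ℤ) : faces (DD N hN) :=
  ⟨Fq N hN a b, (mem_faces hN _).mpr ⟨_, ctr_off hN a b, rfl⟩⟩

theorem fq_surj (F : faces (DD N hN)) : ∃ a b, F = fq N hN a b := by
  obtain ⟨z, hz, h⟩ := (mem_faces hN _).mp F.2
  obtain ⟨a, b, hab⟩ := face_sq hN hz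
  exact ⟨a, b, Subtype.ext (h.trans hab)⟩

theorem finite_faces : (faces (DD N hN)).Finite := by
  refine (faces_finite hN).subset fun F hF => ?_
  obtain ⟨a, b, h⟩ := fq_surj hN ⟨F, hF⟩
  exact ⟨(a, b), (congrArg Subtype.val h).symm⟩

theorem reach_step {a b a' b' : ℤ}
    (h : Fq N hN a b = Fq N hN a' b' ∨ ∃ e p, p ∈ range (ar N hN e) \ Nd N hN ∧
      p ∈ closure (Fq N hN a b) ∧ p ∈ closure (Fq N hN a' b')) :
    (dual (DD N hN)).Reachable (fq N hN a b) (fq N hN a' b') := by
  by_cases hq : fq N hN a b = fq N hN a' b'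
  · rw [hq]
  rcases h with h | ⟨e, p, hp, h1, h2⟩
  · exact absurd (Subtype.ext h) hq
  have fr : ∀ a b : ℤ, p ∈ closure (Fq N hN a b) →
      connectedComponentIn (range (ar N hN e) \ Nd N hN) p ⊆ frontier (Fq N hN a b) := by
    intro a b h q hq
    refine ⟨side_closure hN e hp h hq, fun hi => ?_⟩
    exact connectedComponentIn_subset _ _ (interior_subset hi)
      ((mem_drawing hN q).mpr ⟨e, (connectedComponentIn_subset _ _ hq).1⟩)
  refine SimpleGraph.Adj.reachable ⟨hq, _, ⟨eOf N e, p, ?_, ?_⟩, fr a b h1, fr a' b' h2⟩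
  · rw [nodes_eq]
    change p ∈ range (ar N hN (idx N (eOf N e))) \ _
    rwa [idx_eOf]
  · rw [nodes_eq]
    change _ = connectedComponentIn (range (ar N hN (idx N (eOf N e))) \ _) p
    rw [idx_eOf]

theorem reach_all (a b : ℤ) : (dual (DD N hN)).Reachable (fq N hN 0 0) (fq N hN a b) := by
  have h1 : ∀ a : ℤ, (dual (DD N hN)).Reachable (fq N hN 0 0) (fq N hN a 0) := by
    intro a
    induction a using Int.induction_on with
    | zero => rfl
    | succ i ih => exact ih.trans (reach_step hN (step_x hN _ _))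
    | pred i ih =>
      have := reach_step hN (step_x hN (-(i : ℤ) - 1) 0)
      rw [sub_add_cancel] at this
      exact ih.trans this.symm
  induction b using Int.induction_on with
  | zero => exact h1 a
  | succ i ih => exact ih.trans (reach_step hN (step_y hN _ _))
  | pred i ih =>
    have := reach_step hN (step_y hN a (-(i : ℤ) - 1))
    rw [sub_add_cancel] at this
    exact ih.trans this.symm

theorem dual_connected : (dual (DD N hN)).Connected := by
  have : Nonempty (faces (DD N hN)) := ⟨fq N hN 0 0⟩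
  refine ⟨fun F F' => ?_⟩
  obtain ⟨a, b, rfl⟩ := fq_surj hN F
  obtain ⟨a', b', rfl⟩ := fq_surj hN F'
  exact (reach_all hN a b).symm.trans (reach_all hN a' b')

theorem diam_ge : (N - 1) * (N - 2) ≤ (dual (DD N hN)).diam := by
  have : Nonempty (faces (DD N hN)) := ⟨fq N hN 0 0⟩
  have : Finite (faces (DD N hN)) := (finite_faces hN).to_subtype
  let F0 : faces (DD N hN) := ⟨_, (mem_faces hN _).mpr ⟨_, zero_not_mem hN, rfl⟩⟩
  let F1 : faces (DD N hN) := ⟨_, (mem_faces hN _).mpr ⟨_, far_not_mem hN, rfl⟩⟩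
  refine le_trans ?_ (SimpleGraph.dist_le_diam
    (SimpleGraph.connected_iff_ediam_ne_top.mp (dual_connected hN)) (u := F0) (v := F1))
  obtain ⟨W, hW⟩ := (dual_connected hN).exists_walk_length_eq_dist F0 F1
  rw [← hW]
  refine chain_long hN W.length (fun i => (W.getVert i).1) (by rw [W.getVert_zero])
    (by rw [W.getVert_length]) (fun i _ => (mem_faces hN _).mp (W.getVert i).2) ?_
  intro i hi
  obtain ⟨-, s, ⟨e, p, hp, rfl⟩, h1, h2⟩ := W.adj_getVert_succ hi
  have hps := mem_connectedComponentIn hp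
  refine Or.inr ⟨p, ⟨frontier_subset_closure (h1 hps), frontier_subset_closure (h2 hps)⟩,
    fun h => hp.2 (Or.inl h), (idx N e, false), (idx N e, true), ⟨rfl, by simp⟩, ?_, ?_⟩
  · rw [range_gam]
    exact hp.1
  · intro x y hxy hx
    rw [range_gam] at hx
    have : eOf N x.1 = e := by
      by_contra hne
      refine hp.2 (Or.inr ⟨_, _, hne, ?_, hp.1⟩)
      change p ∈ range (ar N hN (idx N (eOf N x.1)))
      rwa [idx_eOf]
    have h3 := congrArg Subtype.val ((eOf_adj hxy).symm.trans (this.trans (eOf_idx e).symm))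
    exact h3

theorem edge_card (N : ℕ) : (Gr N).edgeSet.ncard = N * N := by
  rw [← Nat.card_coe_set_eq, Nat.card_congr (idx N)]
  simp

end Proof

/-- For every `c < 1` there are simple topological graphs with arbitrarily many edges whose
planarization has finitely many faces and a connected dual of diameter more than `c |E(G)|`. -/
theorem result (c : ℝ) (hc : c < 1) (m : ℕ) :
    ∃ (V : Type) (_ : Finite V) (G : SimpleGraph V) (D : Drawing G),
      m ≤ G.edgeSet.ncard ∧ (faces D).Finite ∧ (dual D).Connected ∧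
        c * (G.edgeSet.ncard : ℝ) < ((dual D).diam : ℝ) := by
  obtain ⟨K, hK⟩ := exists_nat_gt (3 / (1 - c))
  have hN : 0 < K + m + 3 := by omega
  refine ⟨Pool.Agent.Lib.MP_24d225_co.Vx (K + m + 3), inferInstance,
    Pool.Agent.Lib.MP_24d225_co.Gr _, DD _ hN, ?_, finite_faces hN, dual_connected hN, ?_⟩
  · rw [edge_card]
    nlinarith
  · have h4 : (K + m + 2) * (K + m + 1) ≤ (dual (DD _ hN)).diam := diam_ge hN
    have h5 : ((K : ℝ) + m + 2) * (K + m + 1) ≤ (dual (DD _ hN)).diam := by exact_mod_cast h4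
    rw [edge_card]
    push_cast
    have h8 : (0 : ℝ) ≤ K := by positivity
    have h9 : (0 : ℝ) ≤ m := by positivity
    rw [div_lt_iff₀ (by linarith)] at hK
    have h10 : 3 < ((K : ℝ) + m + 3) * (1 - c) := by nlinarith
    nlinarith

end Pool.Agent.Results.MP_24d225_co.DualDiameter
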